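import Pool.Agent.N912.LC.Stm2
import Pool.Agent.N426.LC.Dl

/-!
# Project LC, task LC7a (helper736): from the ideal classes to all the factorisations of
`n^2 + t n + c`
-/

set_option autoImplicit false

namespace Pool.Agent.N736.LC

open Finset Filter
open Pool.Agent.W78.GA (Qd nm prim dt ip lat ball pball nm_cast nm_mul nm_eq_zero mem_ball
  nm_mod_lat nm_pos nm_one one_le_nm)
open Pool.Agent.W251.GX (Cm)
open Pool.Agent.N912.EP.W78EG
open Pool.Agent.N912.LC Pool.Agent.N426.LC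

/-! ### Smallness on logarithmic average -/

/-- small on logarithmic average -/
def Sml (f : ℕ → ℂ) : Prop := ∀ ε : ℝ, 0 < ε → ∃ N₀ : ℕ, ∀ N' : ℕ, N₀ ≤ N' →
  ∑ X ∈ Icc 1 N', 1 / (X : ℝ) ^ 2 * ‖f X‖ ≤ ε * Real.log N'

theorem Sml.congr {f g : ℕ → ℂ} (hf : Sml f) (h : ∀ X, 1 ≤ X → g X = f X) : Sml g := by
  intro ε hε
  obtain ⟨N₀, h0⟩ := hf ε hε
  refine ⟨N₀, fun N' hN => ?_⟩
  rw [Finset.sum_congr rfl (fun X hX => by rw [h X (mem_Icc.1 hX).1])]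
  exact h0 N' hN

theorem Sml.zero : Sml (fun _ => 0) := by
  intro ε hε
  refine ⟨1, fun N' hN => ?_⟩
  simp only [norm_zero, mul_zero, sum_const_zero]
  exact mul_nonneg hε.le (Real.log_nonneg (by exact_mod_cast hN))

theorem Sml.add {f g : ℕ → ℂ} (hf : Sml f) (hg : Sml g) : Sml (fun X => f X + g X) := by
  intro ε hε
  obtain ⟨N₁, h1⟩ := hf (ε / 2) (by positivity)
  obtain ⟨N₂, h2⟩ := hg (ε / 2) (by positivity)
  refine ⟨max N₁ N₂, fun N' hN => ?_⟩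
  have e1 := h1 N' (le_trans (le_max_left _ _) hN)
  have e2 := h2 N' (le_trans (le_max_right _ _) hN)
  calc ∑ X ∈ Icc 1 N', 1 / (X : ℝ) ^ 2 * ‖f X + g X‖
      ≤ ∑ X ∈ Icc 1 N', (1 / (X : ℝ) ^ 2 * ‖f X‖ + 1 / (X : ℝ) ^ 2 * ‖g X‖) := by
        refine Finset.sum_le_sum fun X _ => ?_
        rw [← mul_add]
        exact mul_le_mul_of_nonneg_left (norm_add_le _ _) (by positivity)
    _ ≤ ε * Real.log N' := by rw [Finset.sum_add_distrib]; linarith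

theorem Sml.smul {f : ℕ → ℂ} (hf : Sml f) (a : ℂ) : Sml (fun X => a * f X) := by
  intro ε hε
  have hp : 0 < ‖a‖ + 1 := by positivity
  obtain ⟨N₀, h0⟩ := hf (ε / (‖a‖ + 1)) (by positivity)
  refine ⟨max N₀ 1, fun N' hN => ?_⟩
  have h1 := h0 N' (le_trans (le_max_left _ _) hN)
  have h2 : 1 ≤ N' := le_trans (le_max_right _ _) hN
  have hS : 0 ≤ ∑ X ∈ Icc 1 N', 1 / (X : ℝ) ^ 2 * ‖f X‖ :=
    Finset.sum_nonneg fun X _ => by positivity
  have hl : 0 ≤ Real.log N' := Real.log_nonneg (by exact_mod_cast h2)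
  calc ∑ X ∈ Icc 1 N', 1 / (X : ℝ) ^ 2 * ‖a * f X‖
      = ‖a‖ * ∑ X ∈ Icc 1 N', 1 / (X : ℝ) ^ 2 * ‖f X‖ := by
        rw [Finset.mul_sum]
        refine Finset.sum_congr rfl fun X _ => ?_
        rw [norm_mul]; ring
    _ ≤ (‖a‖ + 1) * ∑ X ∈ Icc 1 N', 1 / (X : ℝ) ^ 2 * ‖f X‖ :=
        mul_le_mul_of_nonneg_right (by linarith) hS
    _ ≤ (‖a‖ + 1) * (ε / (‖a‖ + 1) * Real.log N') :=
        mul_le_mul_of_nonneg_left h1 hp.le
    _ = ε * Real.log N' := by field_simp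

theorem Sml.sum {ι : Type*} (s : Finset ι) (f : ι → ℕ → ℂ) (h : ∀ i ∈ s, Sml (f i)) :
    Sml (fun X => ∑ i ∈ s, f i X) := by
  classical
  induction s using Finset.induction_on with
  | empty => exact Sml.zero.congr fun X _ => by simp
  | insert a s ha ih =>
    have h1 := (h a (mem_insert_self _ _)).add (ih fun i hi => h i (mem_insert_of_mem hi))
    exact h1.congr fun X _ => by rw [Finset.sum_insert ha]

/-! ### The functions `gn g` -/

variable {t c : ℤ}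

theorem cm_gn (hD : t ^ 2 < 4 * c) {N : ℕ} {g : ℕ → ℂ} (hg : CMN N g) :
    Cm N (gn g : Qd t c → ℂ) := by
  refine ⟨hg.pos, ?_, ?_⟩
  · intro z w hz hw
    have h1 : nm z ≠ 0 := fun h => hz ((nm_eq_zero hD).1 h)
    have h2 : nm w ≠ 0 := fun h => hw ((nm_eq_zero hD).1 h)
    unfold gn
    rw [nm_mul, if_neg (mul_ne_zero h1 h2), if_neg h1, if_neg h2, hg.mul _ _ h1 h2]
  · intro z
    unfold gn
    split_ifs with h
    · exact one_pow _
    · exact hg.pow _ h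

theorem g_ne {N : ℕ} {g : ℕ → ℂ} (hg : CMN N g) {n : ℕ} (hn : n ≠ 0) : g n ≠ 0 := by
  intro h
  have h1 := hg.pow n hn
  rw [h, zero_pow (by have := hg.pos; omega)] at h1
  exact zero_ne_one h1

theorem g_norm {N : ℕ} {g : ℕ → ℂ} (hg : CMN N g) {n : ℕ} (hn : n ≠ 0) : ‖g n‖ = 1 :=
  Complex.norm_eq_one_of_pow_eq_one (hg.pow n hn) (by have := hg.pos; omega)

/-! ### Aperiodicity on the larger order -/

section apd

variable {t' c' : ℤ} {γ : ℕ}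

/-- the map `z ↦ γ z` from the larger order to the smaller one -/
def ka (t c : ℤ) (γ : ℕ) (k : ℤ) (z : Qd t' c') : Qd t c := ⟨γ * z.re - k * z.im, z.im⟩

theorem nm_ka (hD : t ^ 2 < 4 * c) (hD' : t' ^ 2 < 4 * c') {k : ℤ} (hk : 2 * k = t - γ * t')
    (hd : t ^ 2 - 4 * c = (γ : ℤ) ^ 2 * (t' ^ 2 - 4 * c')) (z : Qd t' c') :
    nm (ka t c γ k z) = γ ^ 2 * nm z := by
  have h1 : ((nm (ka t c γ k z) : ℕ) : ℤ) = ((γ ^ 2 * nm z : ℕ) : ℤ) := by
    push_cast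
    rw [nm_cast hD, nm_cast hD']
    unfold ka
    dsimp only
    have e1 : t = 2 * k + γ * t' := by linarith
    have e2 : 4 * c = t ^ 2 - (γ : ℤ) ^ 2 * (t' ^ 2 - 4 * c') := by linarith
    have h4 : 4 * ((γ * z.re - k * z.im) ^ 2 + t * (γ * z.re - k * z.im) * z.im +
        c * z.im ^ 2) = 4 * ((γ : ℤ) ^ 2 * (z.re ^ 2 + t' * z.re * z.im + c' * z.im ^ 2)) := by
      have : 4 * ((γ * z.re - k * z.im) ^ 2 + t * (γ * z.re - k * z.im) * z.im +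
        c * z.im ^ 2) = 4 * (γ * z.re - k * z.im) ^ 2 + 4 * t * (γ * z.re - k * z.im) * z.im +
        (4 * c) * z.im ^ 2 := by ring
      rw [this, e2, e1]
      ring
    linarith
  exact_mod_cast h1

theorem apd_up (hD : t ^ 2 < 4 * c) (hD' : t' ^ 2 < 4 * c') (hγ : 1 ≤ γ) {k : ℤ}
    (hk : 2 * k = t - γ * t') (hd : t ^ 2 - 4 * c = (γ : ℤ) ^ 2 * (t' ^ 2 - 4 * c')) {N : ℕ}
    {h : ℕ → ℂ} (hh : CMN N h) (ha : Apd N (gn h : Qd t c → ℂ)) :
    Apd N (gn h : Qd t' c' → ℂ) := by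
  classical
  refine ⟨cm_gn hD' hh, ?_⟩
  intro M r₁ r₂ hM ε hε
  have hγ0 : γ ≠ 0 := by omega
  have hγZ : (γ : ℤ) ≠ 0 := by exact_mod_cast hγ0
  have hγR : (0 : ℝ) < γ := by positivity
  have hγM : 1 ≤ γ * M := Nat.one_le_iff_ne_zero.2 (mul_ne_zero hγ0 (by omega))
  -- the classes modulo `γ M`
  have hmean : ∀ j : ℕ, ∃ X₀ : ℝ, ∀ X : ℝ, X₀ ≤ X →
      ‖∑ z ∈ (ball t c X).filter (fun z => ((γ * M : ℕ) : ℤ) ∣ z.re - (γ * r₁ - k * (r₂ + M * j)) ∧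
        ((γ * M : ℕ) : ℤ) ∣ z.im - (r₂ + M * j)), gn h z‖ ≤ ε / (γ ^ 3) * X := by
    intro j
    exact ha.mean (γ * M) _ _ hγM (ε / γ ^ 3) (by positivity)
  choose X₀ hX₀ using hmean
  obtain ⟨B, hB⟩ : ∃ B : ℝ, ∀ j ∈ range γ, X₀ j ≤ B :=
    ⟨∑ j ∈ range γ, |X₀ j|, fun j hj => (le_abs_self _).trans
      (Finset.single_le_sum (f := fun j => |X₀ j|) (fun i _ => abs_nonneg _) hj)⟩
  refine ⟨max B 0, fun X hX => ?_⟩
  have hX0 : 0 ≤ X := (le_max_right _ _).trans hX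
  have hXB : B ≤ (γ : ℝ) ^ 2 * X := by
    have h1 : (1 : ℝ) ≤ (γ : ℝ) ^ 2 := one_le_pow₀ (by exact_mod_cast hγ)
    have h2 : B ≤ X := (le_max_left _ _).trans hX
    nlinarith
  set S := (ball t' c' X).filter (fun z => (M : ℤ) ∣ z.re - r₁ ∧ (M : ℤ) ∣ z.im - r₂) with hS
  have hinj : Set.InjOn (ka t c γ k : Qd t' c' → Qd t c) S := by
    intro z _ w _ e
    have e1 := congrArg QuadraticAlgebra.re e
    have e2 := congrArg QuadraticAlgebra.im e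
    unfold ka at e1 e2
    dsimp only at e1 e2
    rw [e2] at e1
    apply QuadraticAlgebra.ext
    · exact mul_left_cancel₀ hγZ (by linarith)
    · exact e2
  have him : S.image (ka t c γ k) = (range γ).biUnion (fun j : ℕ =>
      (ball t c ((γ : ℝ) ^ 2 * X)).filter
        (fun z => ((γ * M : ℕ) : ℤ) ∣ z.re - (γ * r₁ - k * (r₂ + M * j)) ∧
          ((γ * M : ℕ) : ℤ) ∣ z.im - (r₂ + M * j))) := by
    ext z
    simp only [mem_image, mem_biUnion, mem_filter, mem_range, hS, mem_ball hD, mem_ball hD']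
    constructor
    · rintro ⟨z', ⟨⟨h1, h2⟩, h3, h4⟩, rfl⟩
      obtain ⟨a, ha'⟩ := h3
      obtain ⟨b, hb⟩ := h4
      have hb0 := Int.emod_nonneg b hγZ
      have hb1 := Int.emod_lt_of_pos b (by positivity : (0 : ℤ) < γ)
      refine ⟨(b % γ).toNat, by omega, ⟨?_, ?_⟩, ?_, ?_⟩
      · rw [nm_ka hD hD' hk hd]
        exact Nat.one_le_iff_ne_zero.2 (mul_ne_zero (by positivity) (by omega))
      · rw [nm_ka hD hD' hk hd]
        push_cast
        exact mul_le_mul_of_nonneg_left h2 (by positivity)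
      · unfold ka
        dsimp only
        rw [Int.toNat_of_nonneg hb0]
        have e3 := Int.emod_add_mul_ediv b γ
        refine ⟨a - k * (b / γ), ?_⟩
        push_cast
        have e4 : z'.re = r₁ + M * a := by linarith
        have e5 : z'.im = r₂ + M * b := by linarith
        rw [e4, e5]
        have e6 : b = b % γ + γ * (b / γ) := by linarith
        generalize b % (γ : ℤ) = u at *
        generalize b / (γ : ℤ) = v at *
        subst e6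
        ring
      · unfold ka
        dsimp only
        rw [Int.toNat_of_nonneg hb0]
        have e3 := Int.emod_add_mul_ediv b γ
        refine ⟨b / γ, ?_⟩
        push_cast
        have e5 : z'.im = r₂ + M * b := by linarith
        rw [e5]
        have e6 : b = b % γ + γ * (b / γ) := by linarith
        generalize b % (γ : ℤ) = u at *
        generalize b / (γ : ℤ) = v at *
        subst e6
        ring
    · rintro ⟨j, hj, ⟨h1, h2⟩, ⟨a, ha'⟩, ⟨b, hb⟩⟩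
      push_cast at ha' hb
      have e1 : z.im = r₂ + M * j + γ * M * b := by linarith
      have e2 : z.re = γ * (r₁ + M * (a + k * b)) - k * z.im := by
        rw [e1]
        linear_combination ha'
      have e3 : ka t c γ k (⟨r₁ + M * (a + k * b), z.im⟩ : Qd t' c') = z := by
        unfold ka
        apply QuadraticAlgebra.ext
        · exact e2.symm
        · rfl
      have e4 := nm_ka hD hD' hk hd (⟨r₁ + M * (a + k * b), z.im⟩ : Qd t' c')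
      rw [e3] at e4
      refine ⟨⟨r₁ + M * (a + k * b), z.im⟩, ⟨⟨?_, ?_⟩, ?_, ?_⟩, e3⟩
      · rcases Nat.eq_zero_or_pos (nm (⟨r₁ + M * (a + k * b), z.im⟩ : Qd t' c')) with h0 | h0
        · rw [h0] at e4
          omega
        · exact h0
      · rw [e4] at h2
        push_cast at h2
        exact le_of_mul_le_mul_left h2 (by positivity)
      · exact ⟨a + k * b, by ring⟩
      · refine ⟨j + γ * b, ?_⟩
        dsimp only
        rw [e1]
        ring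
  have hdis : ((range γ : Finset ℕ) : Set ℕ).PairwiseDisjoint (fun j : ℕ =>
      (ball t c ((γ : ℝ) ^ 2 * X)).filter
        (fun z => ((γ * M : ℕ) : ℤ) ∣ z.re - (γ * r₁ - k * (r₂ + M * j)) ∧
          ((γ * M : ℕ) : ℤ) ∣ z.im - (r₂ + M * j))) := by
    intro i hi j hj hij
    rw [Function.onFun, Finset.disjoint_left]
    intro z hz hz'
    rw [mem_filter] at hz hz'
    have h1 := dvd_sub hz.2.2 hz'.2.2
    have h2 : z.im - (r₂ + M * i) - (z.im - (r₂ + M * j)) = (M : ℤ) * ((j : ℤ) - i) := by ring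
    rw [h2] at h1
    push_cast at h1
    rw [mul_comm (γ : ℤ)] at h1
    have h3 : (γ : ℤ) ∣ (j : ℤ) - i :=
      Int.dvd_of_mul_dvd_mul_left (by omega : (M : ℤ) ≠ 0) h1
    have hi' := mem_range.1 (Finset.mem_coe.1 hi)
    have hj' := mem_range.1 (Finset.mem_coe.1 hj)
    apply hij
    have h4 : ((j : ℤ) - i) = 0 := by
      apply Int.eq_zero_of_abs_lt_dvd h3
      rw [abs_lt]
      constructor <;> omega
    omega
  have hval : ∀ z ∈ S, gn h z = (h (γ ^ 2))⁻¹ * gn h (ka t c γ k z) := by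
    intro z hz
    rw [hS, mem_filter, mem_ball hD'] at hz
    have h0 : nm z ≠ 0 := by omega
    have h1 : γ ^ 2 ≠ 0 := by positivity
    unfold gn
    rw [nm_ka hD hD' hk hd, if_neg h0, if_neg (mul_ne_zero h1 h0), hh.mul _ _ h1 h0,
      inv_mul_cancel_left₀ (g_ne hh h1)]
  rw [Finset.sum_congr rfl hval, ← Finset.mul_sum, norm_mul, norm_inv,
    g_norm hh (by positivity : γ ^ 2 ≠ 0), inv_one, one_mul,
    ← Finset.sum_image (f := fun z => gn h z) hinj, him, Finset.sum_biUnion hdis]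
  refine (norm_sum_le _ _).trans ?_
  calc ∑ j ∈ range γ, ‖∑ z ∈ (ball t c ((γ : ℝ) ^ 2 * X)).filter
        (fun z => ((γ * M : ℕ) : ℤ) ∣ z.re - (γ * r₁ - k * (r₂ + M * j)) ∧
          ((γ * M : ℕ) : ℤ) ∣ z.im - (r₂ + M * j)), gn h z‖
      ≤ ∑ j ∈ range γ, ε / γ ^ 3 * ((γ : ℝ) ^ 2 * X) := by
        refine Finset.sum_le_sum fun j hj => ?_
        exact hX₀ j _ ((hB j hj).trans hXB)
    _ = ε * X := by
        rw [Finset.sum_const, card_range, nsmul_eq_mul]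
        field_simp

end apd

/-! ### The relation -/

section rel

variable {t' c' : ℤ}

/-- the congruences for a pair of vectors -/
def RR (q : ℕ) (γ m : ℕ) (t : ℤ) (a r r' : ℤ) (v w : Qd t' c') : Prop :=
  (q : ℤ) ∣ ((γ * (nm v / m) : ℕ) : ℤ) - r ∧ (q : ℤ) ∣ ((γ * (nm w / m) : ℕ) : ℤ) - r' ∧
    ((2 * q : ℕ) : ℤ) ∣ (γ : ℤ) * (2 * (ip v w / m) + t') - t - 2 * a

/-- the congruences after the dilation -/
def RR' (q : ℕ) (γ : ℕ) (t : ℤ) (a r r' : ℤ) (v w : Qd t' c') : Prop :=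
  (q : ℤ) ∣ (γ : ℤ) * nm v - r * dt v w ∧ (q : ℤ) ∣ (γ : ℤ) * nm w - r' * dt v w ∧
    ((2 * q : ℕ) : ℤ) ∣ (γ : ℤ) * pp v w - (2 * a + t) * dt v w

theorem dvd_ip {m : ℕ} {r₀ : ℤ} (hr : (m : ℤ) ∣ r₀ ^ 2 - t' * r₀ + c') {v w : Qd t' c'}
    (hv : lat m r₀ v) (hw : lat m r₀ w) : (m : ℤ) ∣ ip v w := by
  unfold lat at hv hw
  have e : ip v w = (v.re + r₀ * v.im) * w.re + (w.re + r₀ * w.im) * ((t' - r₀) * v.im) +
      (r₀ ^ 2 - t' * r₀ + c') * (v.im * w.im) := by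
    unfold ip
    ring
  rw [e]
  exact dvd_add (dvd_add (hv.mul_right _) (hw.mul_right _)) (hr.mul_right _)

theorem rel_RR (hD : t' ^ 2 < 4 * c') {q γ m : ℕ} {r₀ : ℤ} (hI : Iv t' c' m r₀)
    (t a r r' : ℤ) :
    RelL (2 * q) m r₀ (RR q γ m t a r r' : Qd t' c' → Qd t' c' → Prop) (RR' q γ t a r r') := by
  have hm0 : 0 < m := hI.pos
  have hmZ : (m : ℤ) ≠ 0 := by exact_mod_cast hm0.ne'
  refine ⟨?_, ?_⟩
  · intro v w v' w' h1 h2 h3 h4
    unfold RR'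
    rw [nm_cast hD, nm_cast hD, nm_cast hD, nm_cast hD]
    unfold pp ip dt
    have d2 : ∀ x y : ℤ, ((2 * q : ℕ) : ℤ) ∣ x - y → ((x : ℤ) : ZMod (2 * q)) = (y : ZMod (2 * q)) := by
      intro x y h
      have := (ZMod.intCast_zmod_eq_zero_iff_dvd (x - y) (2 * q)).2 h
      push_cast at this
      exact sub_eq_zero.1 this
    have d1 : ∀ x y : ℤ, ((2 * q : ℕ) : ℤ) ∣ x - y → ((x : ℤ) : ZMod q) = (y : ZMod q) := by
      intro x y h
      have h' : (q : ℤ) ∣ x - y := dvd_trans (by exact_mod_cast Nat.dvd_mul_left q 2) h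
      have := (ZMod.intCast_zmod_eq_zero_iff_dvd (x - y) q).2 h'
      push_cast at this
      exact sub_eq_zero.1 this
    have a1 := d1 _ _ h1
    have a2 := d1 _ _ h2
    have a3 := d1 _ _ h3
    have a4 := d1 _ _ h4
    have b1 := d2 _ _ h1
    have b2 := d2 _ _ h2
    have b3 := d2 _ _ h3
    have b4 := d2 _ _ h4
    rw [← ZMod.intCast_zmod_eq_zero_iff_dvd, ← ZMod.intCast_zmod_eq_zero_iff_dvd,
      ← ZMod.intCast_zmod_eq_zero_iff_dvd, ← ZMod.intCast_zmod_eq_zero_iff_dvd,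
      ← ZMod.intCast_zmod_eq_zero_iff_dvd, ← ZMod.intCast_zmod_eq_zero_iff_dvd]
    simp only [Int.cast_sub, Int.cast_add, Int.cast_mul, Int.cast_pow, Int.cast_natCast,
      Int.cast_ofNat, a1, a2, a3, a4, b1, b2, b3, b4]
  · intro p hp hpq hpm δ hn hδ v w hv hw hdt
    have hpZ : (p : ℤ) ≠ 0 := by exact_mod_cast hp.ne_zero
    have hcop : IsCoprime ((2 * q : ℕ) : ℤ) (p : ℤ) := by
      rw [Nat.isCoprime_iff_coprime]
      exact hpq.symm
    have hcop1 : IsCoprime (q : ℤ) (p : ℤ) := by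
      rw [Nat.isCoprime_iff_coprime]
      exact (Nat.Coprime.coprime_dvd_right (Nat.dvd_mul_left q 2) hpq).symm
    have key : ∀ x : ℤ, ((2 * q : ℕ) : ℤ) ∣ p * x ↔ ((2 * q : ℕ) : ℤ) ∣ x :=
      fun x => ⟨fun h => hcop.dvd_of_dvd_mul_left h, fun h => h.mul_left _⟩
    have key1 : ∀ x : ℤ, (q : ℤ) ∣ p * x ↔ (q : ℤ) ∣ x :=
      fun x => ⟨fun h => hcop1.dvd_of_dvd_mul_left h, fun h => h.mul_left _⟩
    have e1 := nm_dl hI hn hδ hv
    have e2 := nm_dl hI hn hδ hw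
    have e3 := dt_dl' hD hI hn hδ hv hw hdt
    have e4 := pp_dl hD hI hn hδ hv hw
    obtain ⟨x, hx⟩ := nm_mod_lat hD hI.dvd hv
    obtain ⟨y, hy⟩ := nm_mod_lat hD hI.dvd hw
    obtain ⟨z, hz⟩ := dvd_ip hI.dvd hv hw
    have f1 : nm (dl m δ v) = p * x := by
      apply Nat.eq_of_mul_eq_mul_left hm0
      rw [e1, hx]; ring
    have f2 : nm (dl m δ w) = p * y := by
      apply Nat.eq_of_mul_eq_mul_left hm0
      rw [e2, hy]; ring
    have f3 : pp (dl m δ v) (dl m δ w) = p * (2 * z + t') := by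
      apply mul_left_cancel₀ hmZ
      rw [e4]
      unfold pp
      rw [hz, hdt]; ring
    unfold RR RR'
    rw [f1, f2, f3, e3, hx, hy, hz, Nat.mul_div_cancel_left _ hm0, Nat.mul_div_cancel_left _ hm0,
      Int.mul_ediv_cancel_left _ hmZ]
    push_cast
    have g1 : (γ : ℤ) * (p * x) - r * p = p * (γ * x - r) := by ring
    have g2 : (γ : ℤ) * (p * y) - r' * p = p * (γ * y - r') := by ring
    have g3 : (γ : ℤ) * (p * (2 * z + t')) - (2 * a + t) * p =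
      p * (γ * (2 * z + t') - t - 2 * a) := by ring
    rw [g1, g2, g3, key1, key1]
    have key2 := key (γ * (2 * z + t') - t - 2 * a)
    push_cast at key2
    rw [key2]

end rel

/-! ### One class of one order -/

section one

variable {t' c' : ℤ}

open scoped Classical in
/-- the function which is summed -/
noncomputable def GG (q : ℕ) (g h : ℕ → ℂ) (s₁ s₂ s₃ s₄ : ℝ) (a r r' : ℤ) (X : ℝ)
    (d e n : ℕ) : ℂ :=
  if (s₁ * X < (d : ℝ) ∧ (d : ℝ) ≤ s₂ * X ∧ s₃ * X < (e : ℝ) ∧ (e : ℝ) ≤ s₄ * X) ∧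
    ((q : ℤ) ∣ (d : ℤ) - r ∧ (q : ℤ) ∣ (e : ℤ) - r' ∧ (q : ℤ) ∣ (n : ℤ) - a) then g d * h e else 0

theorem agl_eq (hD : t' ^ 2 < 4 * c') {q γ m N : ℕ} {r₀ : ℤ} (hI : Iv t' c' m r₀) (hγ : 1 ≤ γ)
    {t : ℤ} (ht : t = 0 ∨ t = 1) (ht' : t' = 0 ∨ t' = 1) {k : ℤ} (hk : 2 * k = t - γ * t') {g h : ℕ → ℂ}
    (hg : CMN N g) (hh : CMN N h) {s₁ s₂ s₃ s₄ : ℝ} (h2 : s₂ ≤ 1) (h4 : s₄ ≤ 1)
    (a r r' : ℤ) {X : ℝ} (hX : 0 ≤ X) :
    ∑ e ∈ (DL t' c' m r₀ (X / γ)).filter (fun e => 0 < pp e.1 e.2),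
      GG q g h s₁ s₂ s₃ s₄ a r r' X (γ * (nm e.1 / m)) (γ * (nm e.2 / m))
        (((γ : ℤ) * (2 * ((ip e.1 e.2 / m).toNat : ℤ) + t') - t) / 2).toNat =
      (g γ * h γ * (g m)⁻¹ * (h m)⁻¹) * AGL (t := t') (c := c') m r₀
        (g2 (gn g) (gn h) (RR q γ m t a r r')) (s₁ / γ) (s₂ / γ) (s₃ / γ) (s₄ / γ) X := by
  classical
  have hm0 : 0 < m := hI.pos
  have hmR : (0 : ℝ) < m := by exact_mod_cast hm0
  have hmZ : (m : ℤ) ≠ 0 := by exact_mod_cast hm0.ne'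
  have hγR : (0 : ℝ) < γ := by exact_mod_cast hγ
  have hγ1 : (1 : ℝ) ≤ γ := by exact_mod_cast hγ
  have memDL : ∀ (Y : ℝ) (e : Qd t' c' × Qd t' c'), e ∈ DL t' c' m r₀ Y ↔
      ((1 ≤ nm e.1 ∧ (nm e.1 : ℝ) ≤ m * Y) ∧ (1 ≤ nm e.2 ∧ (nm e.2 : ℝ) ≤ m * Y)) ∧
        lat m r₀ e.1 ∧ lat m r₀ e.2 ∧ dt e.1 e.2 = m := by
    intro Y e
    unfold DL
    rw [mem_filter, mem_product, mem_ball hD, mem_ball hD]
  have win : ∀ (s : ℝ) (x : ℕ), s / γ * (m * X) < ((m * x : ℕ) : ℝ) ↔ s * X < ((γ * x : ℕ) : ℝ) := by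
    intro s x
    push_cast
    have e1 : s / γ * (m * X) = m * (s * X / γ) := by ring
    rw [e1, mul_lt_mul_iff_right₀ hmR, div_lt_iff₀ hγR, mul_comm (x : ℝ)]
  unfold AGL
  rw [Finset.mul_sum, Finset.sum_filter, Finset.sum_filter]
  have hsub : DL t' c' m r₀ (X / γ) ⊆ DL t' c' m r₀ X := by
    intro e he
    rw [memDL] at he ⊢
    have h5 : (m : ℝ) * (X / γ) ≤ m * X :=
      mul_le_mul_of_nonneg_left (div_le_self hX hγ1) hmR.le
    exact ⟨⟨⟨he.1.1.1, he.1.1.2.trans h5⟩, ⟨he.1.2.1, he.1.2.2.trans h5⟩⟩, he.2⟩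
  rw [Finset.sum_subset hsub]
  · refine Finset.sum_congr rfl fun e he => ?_
    rw [memDL] at he
    obtain ⟨⟨⟨n1, -⟩, ⟨n2, -⟩⟩, l1, l2, hdt⟩ := he
    by_cases hp : 0 < pp e.1 e.2
    swap
    · rw [if_neg hp, if_neg (fun hc => hp hc.1)]
    rw [if_pos hp]
    obtain ⟨x, hx⟩ := nm_mod_lat hD hI.dvd l1
    obtain ⟨y, hy⟩ := nm_mod_lat hD hI.dvd l2
    obtain ⟨z, hz⟩ := dvd_ip hI.dvd l1 l2
    have hx0 : x ≠ 0 := by
      rintro rfl
      rw [mul_zero] at hx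
      omega
    have hy0 : y ≠ 0 := by
      rintro rfl
      rw [mul_zero] at hy
      omega
    have hpos : 1 ≤ 2 * z + t' := by
      unfold pp at hp
      rw [hz, hdt] at hp
      have h5 : 0 < (m : ℤ) * (2 * z + t') := by linarith
      have h6 : 0 < 2 * z + t' := (mul_pos_iff_of_pos_left (by exact_mod_cast hm0)).1 h5
      omega
    have hz0 : 0 ≤ z := by omega
    have q1 : nm e.1 / m = x := by rw [hx, Nat.mul_div_cancel_left _ hm0]
    have q2 : nm e.2 / m = y := by rw [hy, Nat.mul_div_cancel_left _ hm0]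
    have q3 : ip e.1 e.2 / m = z := by rw [hz, Int.mul_ediv_cancel_left _ hmZ]
    -- the integer `n`
    obtain ⟨n, hn⟩ : ∃ n : ℤ, (γ : ℤ) * (2 * z + t') - t = 2 * n := ⟨γ * z - k, by linarith⟩
    have hγz : (1 : ℤ) ≤ γ := by exact_mod_cast hγ
    have hn0 : 0 ≤ n := by
      have h5 : (1 : ℤ) * 1 ≤ (γ : ℤ) * (2 * z + t') := mul_le_mul hγz hpos (by norm_num) (by omega)
      omega
    have q4 : (((γ : ℤ) * (2 * ((ip e.1 e.2 / m).toNat : ℤ) + t') - t) / 2).toNat = n.toNat := by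
      rw [q3, Int.toNat_of_nonneg hz0, hn, Int.mul_ediv_cancel_left _ (by norm_num)]
    have cz : (q : ℤ) ∣ ((n.toNat : ℕ) : ℤ) - a ↔
        ((2 * q : ℕ) : ℤ) ∣ (γ : ℤ) * (2 * z + t') - t - 2 * a := by
      rw [Int.toNat_of_nonneg hn0, hn]
      push_cast
      rw [← mul_sub]
      exact (mul_dvd_mul_iff_left (by norm_num : (2 : ℤ) ≠ 0)).symm
    have w1 := win s₁ x
    have w2 := win s₂ x
    have w3 := win s₃ y
    have w4 := win s₄ y
    rw [← hx] at w1 w2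
    rw [← hy] at w3 w4
    have w2' : ((nm e.1 : ℕ) : ℝ) ≤ s₂ / γ * (m * X) ↔ ((γ * x : ℕ) : ℝ) ≤ s₂ * X := by
      rw [← not_lt, w2, not_lt]
    have w4' : ((nm e.2 : ℕ) : ℝ) ≤ s₄ / γ * (m * X) ↔ ((γ * y : ℕ) : ℝ) ≤ s₄ * X := by
      rw [← not_lt, w4, not_lt]
    unfold GG g2 RR
    rw [q4, q1, q2, q3]
    simp only [w1, w2', w3, w4', hp, true_and]
    by_cases hP : s₁ * X < ((γ * x : ℕ) : ℝ) ∧ ((γ * x : ℕ) : ℝ) ≤ s₂ * X ∧
      s₃ * X < ((γ * y : ℕ) : ℝ) ∧ ((γ * y : ℕ) : ℝ) ≤ s₄ * X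
    swap
    · rw [if_neg (fun hc => hP hc.1), if_neg hP]
    rw [if_pos hP]
    by_cases hC : (q : ℤ) ∣ ((γ * x : ℕ) : ℤ) - r ∧ (q : ℤ) ∣ ((γ * y : ℕ) : ℤ) - r' ∧
      (q : ℤ) ∣ ((n.toNat : ℕ) : ℤ) - a
    swap
    · rw [if_neg (fun hc => hC hc.2), if_neg (fun hc => hC ⟨hc.1, hc.2.1, cz.2 hc.2.2⟩), mul_zero]
    rw [if_pos ⟨hP, hC⟩, if_pos ⟨hC.1, hC.2.1, cz.1 hC.2.2⟩]
    have hγ0 : γ ≠ 0 := by omega
    unfold gn
    rw [if_neg (by omega : nm e.1 ≠ 0), if_neg (by omega : nm e.2 ≠ 0), hx, hy,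
      hg.mul _ _ hγ0 hx0, hh.mul _ _ hγ0 hy0, hg.mul _ _ hm0.ne' hx0, hh.mul _ _ hm0.ne' hy0]
    have z1 := g_ne hg hm0.ne'
    have z2 := g_ne hh hm0.ne'
    field_simp
  · intro e he hne
    rw [memDL] at he hne
    obtain ⟨⟨⟨n1, -⟩, ⟨n2, -⟩⟩, l1, l2, hdt⟩ := he
    split_ifs with hp
    swap
    · rfl
    obtain ⟨x, hx⟩ := nm_mod_lat hD hI.dvd l1
    obtain ⟨y, hy⟩ := nm_mod_lat hD hI.dvd l2
    have q1 : nm e.1 / m = x := by rw [hx, Nat.mul_div_cancel_left _ hm0]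
    have q2 : nm e.2 / m = y := by rw [hy, Nat.mul_div_cancel_left _ hm0]
    unfold GG
    rw [q1, q2, if_neg]
    rintro ⟨⟨-, b1, -, b2⟩, -⟩
    apply hne
    have bd : ∀ (s : ℝ) (x : ℕ), s ≤ 1 → ((γ * x : ℕ) : ℝ) ≤ s * X →
        ((m * x : ℕ) : ℝ) ≤ m * (X / γ) := by
      intro s x hs hb
      push_cast at hb ⊢
      refine mul_le_mul_of_nonneg_left ?_ hmR.le
      rw [le_div_iff₀ hγR, mul_comm]
      exact hb.trans (mul_le_of_le_one_left hX hs)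
    refine ⟨⟨⟨n1, ?_⟩, ⟨n2, ?_⟩⟩, l1, l2, hdt⟩
    · rw [hx]; exact bd s₂ x h2 b1
    · rw [hy]; exact bd s₄ y h4 b2

end one

/-- LC7a -/
theorem core1 (hm : ∀ t c : ℤ, (t = 0 ∨ t = 1) → t ^ 2 < 4 * c → S_MC t c) (h6a : S_LC6a)
    (h6b : S_LC6b) : S_CORE1 := by
  classical
  intro t c ht hD N g h hg hh hap q hq w s₁ s₂ s₃ s₄ p1 p12 p2 p3 p34 p4
  change Sml (fun X : ℕ => ∑ y ∈ TW t c s₁ s₂ s₃ s₄ X, w y.2.2 y.1 y.2.1 * (g y.1 * h y.2.1))
  have : NeZero q := ⟨by omega⟩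
  -- one class of residues
  have key : ∀ a r r' : ℤ, Sml (fun X : ℕ => ∑ y ∈ TP t c X,
      GG q g h s₁ s₂ s₃ s₄ a r r' X y.1 y.2.1 y.2.2) := by
    intro a r r'
    obtain ⟨W, hW, hsum⟩ := h6b t c ht hD
    have e1 : ∀ X : ℕ, 1 ≤ X → ∑ y ∈ TP t c X, GG q g h s₁ s₂ s₃ s₄ a r r' X y.1 y.2.1 y.2.2 =
        ∑ y ∈ W, ∑ z ∈ TP1 y.2.1 y.2.2 ((X : ℝ) / y.1), GG q g h s₁ s₂ s₃ s₄ a r r' X
          (y.1 * z.1) (y.1 * z.2.1) (((y.1 : ℤ) * (2 * z.2.2 + y.2.1) - t) / 2).toNat :=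
      fun X _ => hsum X (GG q g h s₁ s₂ s₃ s₄ a r r' X)
    refine Sml.congr (Sml.sum W _ ?_) e1
    rintro ⟨γ, t', c'⟩ hy
    obtain ⟨hγ, ht', hD', hd⟩ := hW _ hy
    dsimp only at hγ ht' hD' hd ⊢
    -- the parity
    obtain ⟨k, hk⟩ : ∃ k : ℤ, 2 * k = t - γ * t' := by
      have h5 : (2 : ℤ) ∣ t ^ 2 - (γ * t') ^ 2 :=
        ⟨2 * c - 2 * (γ : ℤ) ^ 2 * c', by linear_combination hd⟩
      have h6 : (2 : ℤ) ∣ t - γ * t' := by
        rcases Int.even_or_odd (t - γ * t') with h7 | h7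
        · exact h7.two_dvd
        · exfalso
          have h8 : Odd (t + γ * t') := by
            have : t + γ * t' = (t - γ * t') + 2 * (γ * t') := by ring
            rw [this]
            exact h7.add_even (even_two_mul _)
          have h9 : Odd (t ^ 2 - (γ * t') ^ 2) := by
            rw [sq_sub_sq]
            exact h8.mul h7
          exact (Int.not_even_iff_odd.2 h9) (even_iff_two_dvd.2 h5)
      obtain ⟨k, hk⟩ := h6
      exact ⟨k, hk.symm⟩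
    have hap' : Apd N (gn h : Qd t' c' → ℂ) := apd_up hD hD' hγ hk hd hh hap
    obtain ⟨M, hM, hMC⟩ := hm t' c' ht' hD'
    obtain ⟨W', hW', hsum'⟩ := h6a t' c' ht' hD' M hM
    have huc : (uc t' c' : ℂ) ≠ 0 := by
      have h5 : (1 : Qd t' c') ∈ ball t' c' 1 := by
        rw [mem_ball hD', nm_one]
        norm_num
      have h6 : 0 < uc t' c' := Finset.card_pos.2 ⟨1, h5⟩
      exact_mod_cast h6.ne'
    have e2 : ∀ X : ℕ, 1 ≤ X → ∑ z ∈ TP1 t' c' ((X : ℝ) / γ), GG q g h s₁ s₂ s₃ s₄ a r r' X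
          (γ * z.1) (γ * z.2.1) (((γ : ℤ) * (2 * z.2.2 + t') - t) / 2).toNat =
        (uc t' c' : ℂ)⁻¹ * ∑ x ∈ W', ∑ e ∈ (DL t' c' x.1 x.2 ((X : ℝ) / γ)).filter
          (fun e => 0 < pp e.1 e.2), GG q g h s₁ s₂ s₃ s₄ a r r' X
            (γ * (nm e.1 / x.1)) (γ * (nm e.2 / x.1))
            (((γ : ℤ) * (2 * ((ip e.1 e.2 / x.1).toNat : ℤ) + t') - t) / 2).toNat := by
      intro X _
      have h5 := hsum' ((X : ℝ) / γ) (fun d e n => GG q g h s₁ s₂ s₃ s₄ a r r' X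
        (γ * d) (γ * e) (((γ : ℤ) * (2 * n + t') - t) / 2).toNat)
      rw [h5, inv_mul_cancel_left₀ huc]
    refine Sml.congr (Sml.smul (Sml.sum W' _ ?_) _) e2
    rintro ⟨m, r₀⟩ hx
    obtain ⟨hI, hcop⟩ := hW' _ hx
    dsimp only at hI hcop ⊢
    have hγR : (0 : ℝ) < γ := by exact_mod_cast hγ
    have hγ1 : (1 : ℝ) ≤ γ := by exact_mod_cast hγ
    have h5 := hMC m r₀ hI hcop N (gn g) (gn h) (cm_gn hD' hg) hap' (2 * q) (by omega) _ _
      (rel_RR hD' (γ := γ) (q := q) hI t a r r') (s₁ / γ) (s₂ / γ) (s₃ / γ) (s₄ / γ)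
      (by positivity) (by gcongr) (div_le_one_of_le₀ (p2.trans hγ1) hγR.le) (by positivity)
      (by gcongr) (div_le_one_of_le₀ (p4.trans hγ1) hγR.le)
    have h6 : Sml (fun X : ℕ => AGL (t := t') (c := c') m r₀
        (g2 (gn g) (gn h) (RR q γ m t a r r')) (s₁ / γ) (s₂ / γ) (s₃ / γ) (s₄ / γ) X) := h5
    refine Sml.congr (h6.smul (g γ * h γ * (g m)⁻¹ * (h m)⁻¹)) fun X _ => ?_
    exact agl_eq hD' hI hγ ht ht' hk hg hh p2 p4 a r r' (Nat.cast_nonneg X)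
  -- all classes
  have e3 : ∀ X : ℕ, 1 ≤ X → ∑ y ∈ TW t c s₁ s₂ s₃ s₄ X,
      w y.2.2 y.1 y.2.1 * (g y.1 * h y.2.1) =
      ∑ u : ZMod q × ZMod q × ZMod q, w u.1 u.2.1 u.2.2 * ∑ y ∈ TP t c X,
        GG q g h s₁ s₂ s₃ s₄ (u.1.val : ℤ) (u.2.1.val : ℤ) (u.2.2.val : ℤ) X y.1 y.2.1 y.2.2 := by
    intro X _
    have hz : ∀ (n : ℕ) (u : ZMod q), (q : ℤ) ∣ (n : ℤ) - (u.val : ℤ) ↔ u = (n : ZMod q) := by
      intro n u
      rw [← ZMod.intCast_zmod_eq_zero_iff_dvd]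
      push_cast
      rw [ZMod.natCast_zmod_val, sub_eq_zero, eq_comm]
    unfold TW
    rw [Finset.sum_filter]
    simp_rw [Finset.mul_sum]
    rw [Finset.sum_comm]
    refine Finset.sum_congr rfl fun y _ => ?_
    rw [Finset.sum_eq_single ((y.2.2 : ZMod q), (y.1 : ZMod q), (y.2.1 : ZMod q))]
    · unfold GG
      simp only [hz, and_self, and_true]
      split_ifs <;> simp
    · intro u _ hu
      unfold GG
      rw [if_neg, mul_zero]
      rintro ⟨-, c1, c2, c3⟩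
      rw [hz] at c1 c2 c3
      exact hu (by rw [← c1, ← c2, ← c3])
    · intro hn
      exact absurd (mem_univ _) hn
  refine Sml.congr (Sml.sum univ _ fun u _ => ?_) e3
  exact (key _ _ _).smul _

end Pool.Agent.N736.LC
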